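import Pool.Agent.helper51.VR.Spec

set_option autoImplicit false

namespace Pool.Agent.VR

open Pool.Agent.RB NumberField IsDedekindDomain Module
open scoped nonZeroDivisors Real Classical IsMulCommutative

theorem IDN_prod {F H : Type} [Field F] [NumberField F] [Field H] [NumberField H] [Algebra F H]
    [IsAbelianGalois F H] {ι : Type} (U : Subgroup Hˣ) (φ : Hˣ → MonoidAlgebra ℤ (H ≃ₐ[F] H))
    (hφ : IsGH U φ) (h1 : φ 1 = 0) (s : Finset ι) (y : ι → Hˣ) (hy : ∀ j ∈ s, y j ∈ U) :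
    φ (∏ j ∈ s, y j) = ∑ j ∈ s, φ (y j) := by
  classical
  induction s using Finset.induction_on with
  | empty => simpa using h1
  | insert a t ha ih =>
    rw [Finset.prod_insert ha, Finset.sum_insert ha,
      hφ.mul _ (hy a (Finset.mem_insert_self a t)) _
        (U.prod_mem fun j hj => hy j (Finset.mem_insert_of_mem hj)),
      ih fun j hj => hy j (Finset.mem_insert_of_mem hj)]

theorem IDN (hPWR : PWR_stmt) (hFCT : FCT_stmt) : IDN_stmt := by
  intro F H _ _ _ _ _ _ _ r D n u hDS φ hφ x hx hxc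
  obtain ⟨hn, hu, hord⟩ := hDS
  obtain ⟨-, hpw, hgh, hoz⟩ := hPWR F H (D.T : Set (HOS F)) (Set.range D.v)
  -- the anti-invariance
  have anti : ∀ ψ : Hˣ → MonoidAlgebra ℤ (H ≃ₐ[F] H), IsGH (UU D) ψ →
      MonoidAlgebra.single D.c 1 * ψ x = - ψ x := by
    intro ψ hψ
    have hinv : ((x⁻¹ : Hˣ) : H) = D.c (x : H) := by
      rw [Units.val_inv_eq_inv_val]
      exact (eq_inv_of_mul_eq_one_right hxc).symm
    have e1 := hψ.equiv D.c x hx x⁻¹ ((UU D).inv_mem hx) hinv
    have e2 := (hgh ψ hψ).2.1 x hx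
    rw [← e1, e2]
  refine ⟨anti φ hφ, ?_⟩
  -- the element z
  set y : Fin r → Hˣ := fun j => pw (-(ordZ F (D.w j) (x : H))) (u j) with hy
  have hyU : ∀ j, y j ∈ UU D := fun j => (hpw _ (u j)).1 (hu j).1
  set z : Hˣ := x ^ (2 * n) * ∏ j, y j with hz
  have hPU : ∏ j, y j ∈ UU D := (UU D).prod_mem fun j _ => hyU j
  have hxn : x ^ (2 * n) ∈ UU D := (UU D).pow_mem hx _
  have hzU : z ∈ UU D := (UU D).mul_mem hxn hPU
  have hQmul : ∀ a b : Hˣ, (a : H) * D.c (a : H) = 1 → (b : H) * D.c (b : H) = 1 →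
      ((a * b : Hˣ) : H) * D.c ((a * b : Hˣ) : H) = 1 := by
    intro a b ha hb
    rw [Units.val_mul, map_mul]
    calc (a : H) * b * (D.c (a : H) * D.c (b : H)) = ((a : H) * D.c (a : H)) * ((b : H) * D.c (b : H)) := by ring
      _ = 1 := by rw [ha, hb, one_mul]
  have hQone : ((1 : Hˣ) : H) * D.c ((1 : Hˣ) : H) = 1 := by simp
  have hzc : (z : H) * D.c (z : H) = 1 := by
    rw [hz]
    apply hQmul
    · rw [Units.val_pow_eq_pow_val, map_pow, ← mul_pow, hxc, one_pow]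
    · exact Finset.prod_induction y (fun a : Hˣ => (a : H) * D.c (a : H) = 1) hQmul hQone
        (fun j _ => (hpw _ (u j)).2.2.2 D.c (hu j).2)
  -- the value at z of a homomorphism
  have hval : ∀ ψ : Hˣ → MonoidAlgebra ℤ (H ≃ₐ[F] H), IsGH (UU D) ψ →
      ψ z = (2 * n) • ψ x - ∑ j, ordZ F (D.w j) (x : H) * ψ (u j) := by
    intro ψ hψ
    obtain ⟨h0, -, hp⟩ := hgh ψ hψ
    rw [hz, hψ.mul _ hxn _ hPU, hp x hx, IDN_prod (UU D) ψ hψ h0 Finset.univ y fun j _ => hyU j,
      sub_eq_add_neg, ← Finset.sum_neg_distrib]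
    congr 1
    refine Finset.sum_congr rfl fun j _ => ?_
    have e := (hpw (-(ordZ F (D.w j) (x : H))) (u j)).2.1 ψ (hu j).1 hψ
    change ψ (pw (-(ordZ F (D.w j) (x : H))) (u j)) = -(ordZ F (D.w j) (x : H) * ψ (u j))
    rw [e]
    ring
  have hzord : ∀ i, ordZ F (D.w i) (z : H) = 0 := by
    intro i
    have e : ordZ F (D.w i) (z : H) = (2 * n) • ordZ F (D.w i) (x : H) -
        ∑ j, ordZ F (D.w j) (x : H) * ordZ F (D.w i) (u j : H) :=
      hval (fun t => ordZ F (D.w i) (t : H)) (hoz (D.w i))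
    rw [e]
    have hc : MonoidAlgebra.single D.c 1 * ordZ F (D.w i) (x : H) = - ordZ F (D.w i) (x : H) :=
      anti (fun t => ordZ F (D.w i) (t : H)) (hoz (D.w i))
    have hsum : ∑ j, ordZ F (D.w j) (x : H) * ordZ F (D.w i) (u j : H) =
        ordZ F (D.w i) (x : H) * (n • (1 - MonoidAlgebra.single D.c 1)) := by
      rw [Finset.sum_eq_single i]
      · rw [hord i i, if_pos rfl]
      · intro j _ hj
        rw [hord i j, if_neg (Ne.symm hj), mul_zero]
      · intro h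
        exact absurd (Finset.mem_univ i) h
    rw [hsum, mul_smul_comm, mul_sub, mul_one, mul_comm (ordZ F (D.w i) (x : H)), hc]
    simp only [nsmul_eq_mul, Nat.cast_mul, Nat.cast_ofNat]
    ring
  have hz1 : z = 1 := (vr_inj F H r D).1 z hzU hzc hzord
  have hfin := hval φ hφ
  rw [hz1, (hgh φ hφ).1] at hfin
  exact (sub_eq_zero.mp hfin.symm)

end Pool.Agent.VR
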